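import Mathlib
import Pool.Agent.Lib_MP_1dbf07_co.E6

set_option autoImplicit false

open Polynomial

namespace Pool.Agent.Results.MP_1dbf07_co.RealRooted

/-- Every `p_n`, `n ≥ 1`, has only real roots. `R` is the square root and `F` the series `F_x(z)`
of the problem, as power series in `z` over `ℚ[x]` (they exist); the polynomial `p_n` is `n!` times
the coefficient of `z^n` in `- log (1 + ∑ a_m z^m / m!)`, `a_m` the coefficients of `F`. -/
theorem result :
    (∃ R F : PowerSeries ℚ[X], PowerSeries.constantCoeff R = 1 ∧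
      R ^ 2 = 1 - 6 * (PowerSeries.X : PowerSeries ℚ[X]) + PowerSeries.X ^ 2
        + 2 * PowerSeries.C X * PowerSeries.X + 2 * PowerSeries.C X * PowerSeries.X ^ 2
        + PowerSeries.C X ^ 2 * PowerSeries.X ^ 2 ∧
      2 * (1 - PowerSeries.C X * PowerSeries.X) * F =
        - PowerSeries.C X * (1 - PowerSeries.X + PowerSeries.C X * PowerSeries.X - R)) ∧
    ∀ R F : PowerSeries ℚ[X], PowerSeries.constantCoeff R = 1 →
      R ^ 2 = 1 - 6 * (PowerSeries.X : PowerSeries ℚ[X]) + PowerSeries.X ^ 2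
        + 2 * PowerSeries.C X * PowerSeries.X + 2 * PowerSeries.C X * PowerSeries.X ^ 2
        + PowerSeries.C X ^ 2 * PowerSeries.X ^ 2 →
      2 * (1 - PowerSeries.C X * PowerSeries.X) * F =
        - PowerSeries.C X * (1 - PowerSeries.X + PowerSeries.C X * PowerSeries.X - R) →
      ∀ n : ℕ, 1 ≤ n → ∀ z : ℂ,
        aeval z ((n.factorial : ℚ) • PowerSeries.coeff n (- PowerSeries.logOf
          (1 + PowerSeries.mk fun m => (1 / (m.factorial : ℚ)) • PowerSeries.coeff m F))) = 0 →
        z.im = 0 := by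
  refine ⟨?_, fun R F h1 h2 h3 n hn z hz => ?_⟩
  · obtain ⟨R, F, h1, h2, h3⟩ := Pool.Agent.Lib_MP_1dbf07_co.exists_isF
    exact ⟨R, F, h1, h2, h3⟩
  · exact Pool.Agent.Lib_MP_1dbf07_co.real_rooted ⟨h1, h2, h3⟩ hn z hz

end Pool.Agent.Results.MP_1dbf07_co.RealRooted
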